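import Mathlib
import Pool.Agent.Q235.TF.Equiv

/-!
# Families of symplectic forms and families of degenerately tamed structures

Let `X` be a closed manifold and `a` the class of a closed two-form `τ` on `X`. Let `S` be the space
of the symplectic forms in the class `a` and `T` the space of the continuous almost complex
structures which are weakly tamed or singularly tamed in the class `a`. For every compact Hausdorff
space `B` taming of the family of structures by the family of forms is a bijection between
the homotopy classes of continuous maps from `B` to `S` and from `B` to `T`. In particular `S` is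
weakly contractible if and only if `T` is.
-/

set_option autoImplicit false

open Set Filter Topology MeasureTheory
open scoped Manifold ContDiff

noncomputable section

namespace Pool.Agent.Results.MP_2fc7fa_gt.TamedFamilies

open Pool.Agent.Y501.SYP
open Pool.Agent.Q235.SZ (SForm SympClass)
open Pool.Agent.Q235.TF (AStr Structures TamesFam)

section

variable {d : ℕ} {X : Type} [TopologicalSpace X] [ChartedSpace (ES d) X]
  [IsManifold 𝓘(ℝ, ES d) ∞ X]

/-- Every continuous family `J` of structures over `B` is tamed by a continuous family `f` of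
symplectic forms, every `f` tames some `J`, and if `f` tames `J` and `g` tames `K`, then `f` and `g`
are homotopic if and only if `J` and `K` are. -/
def SameClasses (τ : SForm (ES d) X) (B : Type) [TopologicalSpace B] : Prop :=
  (∀ J : C(B, Structures τ.1), ∃ f : C(B, SympClass τ), TamesFam f J) ∧
  (∀ f : C(B, SympClass τ), ∃ J : C(B, Structures τ.1), TamesFam f J) ∧
  ∀ (f g : C(B, SympClass τ)) (J K : C(B, Structures τ.1)), TamesFam f J → TamesFam g K →
    (f.Homotopic g ↔ J.Homotopic K)

end

/-- `Y` is not empty, and every continuous map from a sphere to `Y` is homotopic to a constant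
map. -/
def WeaklyContractible (Y : Type) [TopologicalSpace Y] : Prop :=
  Nonempty Y ∧ ∀ (n : ℕ) (g : C(Metric.sphere (0 : EuclideanSpace ℝ (Fin (n + 1))) 1, Y)),
    g.Nullhomotopic

theorem result (d : ℕ) (hd : 1 ≤ d) (X : Type) [TopologicalSpace X] [ChartedSpace (ES d) X]
    [IsManifold 𝓘(ℝ, ES d) ∞ X] [CompactSpace X] [T2Space X] (τ : SForm (ES d) X)
    (hc : IsClosedForm τ.1) :
    (∀ (B : Type) [TopologicalSpace B] [CompactSpace B] [T2Space B], SameClasses τ B) ∧
      (WeaklyContractible (SympClass τ) ↔ WeaklyContractible (Structures τ.1)) := by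
  refine ⟨fun B _ _ _ => ⟨Pool.Agent.Q235.TF.form_of hd hc, Pool.Agent.Q235.TF.str_of,
    fun f g J K => Pool.Agent.Q235.TF.homotopic_iff hd hc⟩, ?_⟩
  have hn : Nonempty (SympClass τ) ↔ Nonempty (Structures τ.1) := by
    constructor
    · rintro ⟨σ⟩
      obtain ⟨J, -⟩ := Pool.Agent.Q235.TF.str_of (B := Unit) (ContinuousMap.const Unit σ)
      exact ⟨J ()⟩
    · rintro ⟨J⟩
      obtain ⟨σ, -⟩ := Pool.Agent.Q235.TF.form_of hd hc (B := Unit) (ContinuousMap.const Unit J)
      exact ⟨σ ()⟩
  have hs : ∀ n : ℕ, CompactSpace (Metric.sphere (0 : EuclideanSpace ℝ (Fin (n + 1))) 1) :=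
    fun n => isCompact_iff_compactSpace.1 (isCompact_sphere _ _)
  exact ⟨fun h => ⟨hn.1 h.1, fun n => (Pool.Agent.Q235.TF.null_iff hd hc).1 (h.2 n)⟩,
    fun h => ⟨hn.2 h.1, fun n => (Pool.Agent.Q235.TF.null_iff hd hc).2 (h.2 n)⟩⟩

end Pool.Agent.Results.MP_2fc7fa_gt.TamedFamilies
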