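import Mathlib
import Pool.Agent.Q235.SZ.Hom

/-!
# The space of cohomologous symplectic forms and thinly degenerate forms

`X` is a closed four-manifold (for example `CP²`) and `τ` a symplectic form on `X`.  `Symp τ` is the
space of the symplectic forms cohomologous to `τ` which induce the orientation of `τ`, with the
`C^∞` topology.  `Thin τ` is the larger space of the closed forms `σ` in the same class with
`σ ∧ σ ≥ 0` which may be degenerate, but do not vanish at the points where they are degenerate, and
such that the components of the set of these points have zero area near each of their points, or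
are not tangent to the kernel of `σ`.

* Compact subsets of `Thin τ` can be pushed into `Symp τ`, instantly.
* The inclusion of `Symp τ` in `Thin τ` induces a bijection of the homotopy classes of maps from
  any compact space.
* Compact families of symplectic forms whose segments to a fixed symplectic form stay in `Thin τ`
  are null-homotopic in `Symp τ`.
-/

set_option autoImplicit false

open Set MeasureTheory
open scoped Manifold ContDiff

noncomputable section

namespace Pool.Agent.Results.MP_2fc7fa_gt.ThinDegenerations

open Pool.Agent.Y501.SYP Pool.Agent.Q235.SZ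

section

variable {X : Type} [TopologicalSpace X] [ChartedSpace (ES 4) X] [IsManifold 𝓘(ℝ, ES 4) ∞ X]

/-- Every compact subset `C` of `N` can be pushed into `S`: there is a continuous
`H : [0,1] × C → SForm` with `H(0, σ) = σ` and `H(s, σ) ∈ S` for `s > 0`. -/
def Pushes (S N : Set (SForm (ES 4) X)) : Prop :=
  ∀ C : Set (SForm (ES 4) X), IsCompact C → C ⊆ N →
    ∃ H : ℝ × SForm (ES 4) X → SForm (ES 4) X, ContinuousOn H (Icc (0 : ℝ) 1 ×ˢ C) ∧
      (∀ σ ∈ C, H (0, σ) = σ) ∧ ∀ s : ℝ, 0 < s → s ≤ 1 → ∀ σ ∈ C, H (s, σ) ∈ S

/-- the inclusion of `Symp τ` in `Thin τ` induces a surjection of the homotopy classes of maps from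
`B` -/
def SurjClasses (τ : SForm (ES 4) X) (B : Type) [TopologicalSpace B] : Prop :=
  ∀ f : C(B, Thin τ), ∃ g : C(B, Symp τ), f.Homotopic ((incl τ).comp g)

/-- the inclusion of `Symp τ` in `Thin τ` induces an injection of the homotopy classes of maps from
`B` -/
def InjClasses (τ : SForm (ES 4) X) (B : Type) [TopologicalSpace B] : Prop :=
  ∀ f g : C(B, Symp τ), ((incl τ).comp f).Homotopic ((incl τ).comp g) → f.Homotopic g

/-- a family `f` of forms in `Symp τ`, all of whose segments to `σ` lie in `Thin τ`, is homotopic
in `Symp τ` to the constant family `σ` -/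
def Contracts (τ : SForm (ES 4) X) (B : Type) [TopologicalSpace B] : Prop :=
  ∀ (σ : Symp τ) (f : C(B, Symp τ)),
    (∀ b, ∀ t : ℝ, 0 ≤ t → t ≤ 1 → seg (f b).1 σ.1 t ∈ Thin τ) →
    f.Homotopic (ContinuousMap.const B σ)

end

theorem result (X : Type) [TopologicalSpace X] [ChartedSpace (ES 4) X]
    [IsManifold 𝓘(ℝ, ES 4) ∞ X] [CompactSpace X] [T2Space X] (τ : SForm (ES 4) X)
    (_hτ : IsClosedForm τ.1) (hn : Nondeg τ.1) :
    Pushes (Symp τ) (Thin τ) ∧ ∀ (B : Type) [TopologicalSpace B] [CompactSpace B],
      SurjClasses τ B ∧ InjClasses τ B ∧ Contracts τ B :=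
  ⟨fun C hC hCN => push hn hC hCN, fun B _ _ => ⟨fun f => surj hn f, fun f g h => inj hn f g h,
    fun σ f h => contr hn σ f h⟩⟩

end Pool.Agent.Results.MP_2fc7fa_gt.ThinDegenerations
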