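import Mathlib
import Pool.Agent.Q235.SZ.Star

/-!
# The symplectic forms in a class which weakly tame an almost complex structure

`X` is a closed manifold of any dimension (for example `CP²`), `J` a continuous almost complex
structure on `X` and `τ` a smooth two-form.  The set `Weak τ J` of the symplectic forms `σ`
cohomologous to `τ` with `σ(v, J v) ≥ 0` for all tangent vectors `v`, which tame `J` off a set with
small components, is empty or star-shaped about a form which tames `J` at all points.  In
particular it is contractible in the `C^∞` topology if it is not empty.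
-/

set_option autoImplicit false

open Set MeasureTheory
open scoped Manifold ContDiff

noncomputable section

namespace Pool.Agent.Results.MP_2fc7fa_gt.WeaklyTaming

open Pool.Agent.Y501.SYP Pool.Agent.Q235.SZ

theorem result (d : ℕ) (X : Type) [TopologicalSpace X] [ChartedSpace (ES d) X]
    [IsManifold 𝓘(ℝ, ES d) ∞ X] [CompactSpace X] [T2Space X] (τ : SForm (ES d) X)
    (J : End (ES d) X) (hJ : IsAlmostComplex J) (hne : (Weak τ J).Nonempty) :
    ∃ σ ∈ Weak τ J, (∀ x, TamesAt σ.1 J x) ∧
      ∀ w ∈ Weak τ J, ∀ t : ℝ, 0 ≤ t → t ≤ 1 → seg w σ t ∈ Weak τ J := by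
  obtain ⟨w₀, hw₀⟩ := hne
  obtain ⟨σ, hσ, hσJ⟩ := exists_taming hJ hw₀
  refine ⟨σ, ?_, hσJ, fun w hw t h0 h1 => star hσ hσJ hw t h0 h1⟩
  have h1 := star hσ hσJ hw₀ 1 zero_le_one le_rfl
  rwa [seg_one'] at h1

end Pool.Agent.Results.MP_2fc7fa_gt.WeaklyTaming
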